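import Pool.Agent.Helper10.CYC.OddDefs

/-!
# Pieces A1, A2, A5 of the char 2 layer

Functoriality of `dd`, evaluation at the roots, linear dependence.
-/

set_option autoImplicit false

namespace Pool.Agent.Helper91.CYC

open Finset Polynomial
open Pool.Agent.Helper10.CYC

theorem st_a1 : ST_A1 := by
  intro R S _ _ φ k f hf g
  unfold dd
  rw [RingHom.map_det]
  congr 1
  ext a j
  simp only [RingHom.mapMatrix_apply, Matrix.map_apply, Matrix.of_apply]
  rw [← Polynomial.map_modByMonic φ hf, Polynomial.coeff_map]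

lemma eval_root_mod {R : Type} [CommRing R] {k : ℕ} (y : Fin k → R) (p : R[X]) (i : Fin k) :
    (p %ₘ (∏ i, (X - C (y i)))).eval (y i) = p.eval (y i) := by
  have hm : (∏ i, (X - C (y i))).Monic := monic_prod_of_monic _ _ (fun i _ => monic_X_sub_C _)
  have h := Polynomial.modByMonic_add_div p (∏ i, (X - C (y i)))
  have h2 := congrArg (fun q => eval (y i) q) h
  simp only [eval_add, eval_mul] at h2
  rw [← h2]
  have h0 : eval (y i) (∏ i, (X - C (y i))) = 0 := by
    rw [eval_prod]
    exact Finset.prod_eq_zero (mem_univ i) (by simp)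
  rw [h0, zero_mul, add_zero]

lemma coeff_sum_eval {R : Type} [CommRing R] {k : ℕ} (y : Fin k → R) (p : R[X]) (i : Fin k) :
    p.eval (y i) = ∑ a : Fin k, (y i) ^ (a : ℕ) *
      (p %ₘ (∏ i, (X - C (y i)))).coeff (a : ℕ) := by
  rcases subsingleton_or_nontrivial R with hR | hR
  · exact Subsingleton.elim _ _
  have hm : (∏ i, (X - C (y i))).Monic := monic_prod_of_monic _ _ (fun i _ => monic_X_sub_C _)
  have hd : (∏ i : Fin k, (X - C (y i))).natDegree = k := by
    rw [natDegree_prod_of_monic _ _ (fun i _ => monic_X_sub_C _)]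
    simp
  have hk : 0 < k := Fin.pos i
  have hne : (∏ i : Fin k, (X - C (y i))) ≠ 1 := by
    intro h
    rw [h, natDegree_one] at hd
    omega
  have hlt := natDegree_modByMonic_lt p hm hne
  rw [hd] at hlt
  rw [← eval_root_mod y p i, eval_eq_sum_range' hlt, ← Fin.sum_univ_eq_sum_range
    (fun a => (p %ₘ (∏ i, (X - C (y i)))).coeff a * (y i) ^ a)]
  exact Finset.sum_congr rfl (fun a _ => mul_comm _ _)

theorem st_a2 : ST_A2 := by
  intro R _ k y g
  unfold dd
  rw [← Matrix.det_mul]
  congr 1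
  ext i j
  rw [Matrix.of_apply, coeff_sum_eval, Matrix.mul_apply]
  simp only [Matrix.vandermonde_apply, Matrix.of_apply]

theorem st_a5 : ST_A5 := by
  intro K _ k f hf hd g h
  unfold dd at h
  rw [← Matrix.exists_mulVec_eq_zero_iff] at h
  obtain ⟨v, hv, hv2⟩ := h
  refine ⟨v, hv, ?_⟩
  rw [← Polynomial.modByMonic_eq_zero_iff_dvd hf]
  have key : (∑ j, C (v j) * g j) %ₘ f = ∑ j, C (v j) * (g j %ₘ f) := by
    have h1 : ∀ p : K[X], p %ₘ f = Polynomial.modByMonicHom f p := fun p => rfl
    rw [h1, map_sum]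
    refine Finset.sum_congr rfl (fun j _ => ?_)
    rw [← Polynomial.smul_eq_C_mul, ← Polynomial.smul_eq_C_mul, map_smul]
    rfl
  rw [key]
  ext a
  rw [finsetSum_coeff, coeff_zero]
  by_cases ha : a < k
  · have h3 := congrFun hv2 ⟨a, ha⟩
    simp only [Matrix.mulVec, dotProduct, Matrix.of_apply, Pi.zero_apply] at h3
    rw [← h3]
    refine Finset.sum_congr rfl (fun j _ => ?_)
    rw [coeff_C_mul, mul_comm]
  · refine Finset.sum_eq_zero (fun j _ => ?_)
    rw [coeff_C_mul]
    have h4 : (g j %ₘ f).degree < (a : WithBot ℕ) := by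
      refine lt_of_lt_of_le (degree_modByMonic_lt (g j) hf) ?_
      rw [degree_eq_natDegree hf.ne_zero, hd]
      exact_mod_cast not_lt.1 ha
    rw [coeff_eq_zero_of_degree_lt h4, mul_zero]

end Pool.Agent.Helper91.CYC
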