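import Pool.Agent.Helper10.CYC.OddDefs

/-!
# Piece E of the char 2 layer: the polynomial contradiction for T1
-/

set_option autoImplicit false

namespace Pool.Agent.Helper91.CYC

open Finset Polynomial
open Pool.Agent.Helper10.CYC

section

variable {K : Type} [Field K]

lemma sq_dvd_sq {a b : K[X]} (h : a ^ 2 ∣ b ^ 2) : a ∣ b :=
  (IsIntegrallyClosed.pow_dvd_pow_iff two_ne_zero).1 h

lemma deriv_sq [CharP K 2] (p : K[X]) : derivative (p ^ 2) = 0 := by
  rw [sq, derivative_mul, mul_comm p (derivative p)]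
  exact CharTwo.add_self_eq_zero _

/-- Coprimality with a power of `X`. -/
lemma dvd_of_dvd_X_pow_mul {f p : K[X]} (hf : f.eval 0 ≠ 0) {n : ℕ} (h : f ∣ X ^ n * p) :
    f ∣ p := by
  have hc : IsCoprime (X : K[X]) f := by
    rw [(irreducible_X (R := K)).coprime_iff_not_dvd, X_dvd_iff]
    rwa [coeff_zero_eq_eval_zero]
  exact (hc.pow_left (m := n)).symm.dvd_of_dvd_mul_left h

/-- The polynomial with coefficients `w` on the slots `j` with `P j`, exponents `e j`. -/
noncomputable def lin {k : ℕ} (s : Finset (Fin k)) (w : Fin k → K) (e : Fin k → ℕ) : K[X] :=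
  ∑ j ∈ s, C (w j) * X ^ (e j)

lemma lin_degree {k n : ℕ} (s : Finset (Fin k)) (w : Fin k → K) (e : Fin k → ℕ)
    (he : ∀ j ∈ s, e j < n) : (lin s w e).degree < (n : WithBot ℕ) := by
  rw [← mem_degreeLT]
  refine Submodule.sum_mem _ (fun j hj => ?_)
  rw [mem_degreeLT]
  refine lt_of_le_of_lt (degree_C_mul_X_pow_le _ _) ?_
  exact_mod_cast he j hj

lemma lin_coeff {k : ℕ} (s : Finset (Fin k)) (w : Fin k → K) (e : Fin k → ℕ)
    (he : ∀ i ∈ s, ∀ j ∈ s, e i = e j → i = j) (j : Fin k) (hj : j ∈ s) :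
    (lin s w e).coeff (e j) = w j := by
  unfold lin
  rw [finsetSum_coeff, Finset.sum_eq_single j]
  · rw [coeff_C_mul_X_pow, if_pos rfl]
  · intro i hi hij
    rw [coeff_C_mul_X_pow, if_neg]
    intro h
    exact hij (he i hi j hj h.symm)
  · intro h
    exact absurd hj h

lemma lin_sq [CharP K 2] {k : ℕ} (s : Finset (Fin k)) (w v : Fin k → K) (e : Fin k → ℕ)
    (hw : ∀ j, w j ^ 2 = v j) :
    (lin s w e) ^ 2 = ∑ j ∈ s, C (v j) * X ^ (2 * e j) := by
  unfold lin
  rw [CharTwo.sum_sq]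
  refine Finset.sum_congr rfl (fun j _ => ?_)
  rw [mul_pow, ← C_pow, hw, ← pow_mul, mul_comm (e j) 2]

/-- A polynomial of degree `< d.natDegree + n` divisible by the monic `d` has quotient of
degree `< n`. -/
lemma quot_degree {d q : K[X]} (hd : d.Monic) {n : ℕ}
    (h : (d * q).degree < ((d.natDegree + n : ℕ) : WithBot ℕ)) : q.degree < (n : WithBot ℕ) := by
  by_cases hq : q = 0
  · rw [hq, degree_zero]; exact WithBot.bot_lt_coe _
  rw [degree_mul, degree_eq_natDegree hd.ne_zero, degree_eq_natDegree hq] at h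
  rw [degree_eq_natDegree hq]
  have h2 : d.natDegree + q.natDegree < d.natDegree + n := by exact_mod_cast h
  exact_mod_cast (by omega : q.natDegree < n)

end

theorem st_e : ST_E := by
  classical
  intro K _ _ _ D O hD hO hD0 hO0 hsq k m hk hm1 hm2 hdep
  -- the roots of `O`
  set Rt : Finset K := O.roots.toFinset with hRt
  have hnd : O.roots.Nodup := (nodup_roots_iff_of_splits hO.ne_zero
    (IsAlgClosed.splits O)).2 (PerfectField.separable_iff_squarefree.2 hsq)
  have hcardR : Rt.card = O.natDegree := by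
    rw [hRt, Multiset.toFinset_card_of_nodup hnd]
    exact (IsAlgClosed.splits O).natDegree_eq_card_roots.symm
  obtain ⟨T, hT, hTc⟩ := Finset.exists_subset_card_eq
    (show m - D.natDegree ≤ Rt.card by rw [hcardR]; omega)
  -- square roots
  have hroot : ∀ z : K, ∃ y : K, y ^ 2 = z := fun z => IsAlgClosed.exists_pow_nat_eq z two_pos
  choose rt hrt using hroot
  set δ : K[X] := Lagrange.interpolate Rt id
    (fun z => if z ∈ T then rt (z + 1) else rt z) with hδ
  have hδ1 : ∀ z ∈ Rt, δ.eval z = if z ∈ T then rt (z + 1) else rt z := by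
    intro z hz
    exact Lagrange.eval_interpolate_at_node (v := id) _ (Set.injOn_id _) hz
  set Γ : K[X] := X + δ ^ 2 with hΓ
  have hΓT : ∀ z ∈ T, Γ.eval z = 1 := by
    intro z hz
    rw [hΓ, eval_add, eval_X, eval_pow, hδ1 z (hT hz), if_pos hz, hrt, ← add_assoc,
      CharTwo.add_self_eq_zero, zero_add]
  have hΓN : ∀ z ∈ Rt, z ∉ T → Γ.eval z = 0 := by
    intro z hz hzT
    rw [hΓ, eval_add, eval_X, eval_pow, hδ1 z hz, if_neg hzT, hrt]
    exact CharTwo.add_self_eq_zero _
  obtain ⟨v, hv, hdvd⟩ := hdep Γ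
  set w : Fin k → K := fun j => rt (v j) with hw
  have hwv : ∀ j, w j ^ 2 = v j := fun j => hrt _
  set sB : Finset (Fin k) := univ.filter (fun j => (j : ℕ) < m) with hsB
  set sA : Finset (Fin k) := univ.filter (fun j => ¬ (j : ℕ) < m) with hsA
  set b : K[X] := lin sB w (fun j => (j : ℕ)) with hb
  set a : K[X] := lin sA w (fun j => (j : ℕ) - m) with ha
  have hsum : ∑ j, C (v j) * col1 k m Γ j = X ^ (2 * (k - m)) * (Γ * b ^ 2 + a ^ 2) := by
    rw [hb, ha, lin_sq _ _ v _ hwv, lin_sq _ _ v _ hwv, mul_add, mul_sum, mul_sum, mul_sum,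
      ← Finset.sum_filter_add_sum_filter_not univ (fun j : Fin k => (j : ℕ) < m)]
    congr 1
    · refine Finset.sum_congr rfl (fun j hj => ?_)
      have hj2 : (j : ℕ) < m := (mem_filter.1 hj).2
      unfold col1
      rw [if_pos hj2, pow_add]
      ring
    · refine Finset.sum_congr rfl (fun j hj => ?_)
      have hj2 : ¬ (j : ℕ) < m := (mem_filter.1 hj).2
      unfold col1
      rw [if_neg hj2, pow_add]
      ring
  rw [hsum] at hdvd
  have hDO0 : (D ^ 2 * O).eval 0 ≠ 0 := by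
    rw [eval_mul, eval_pow]
    exact mul_ne_zero (pow_ne_zero _ hD0) hO0
  have h1 := dvd_of_dvd_X_pow_mul hDO0 hdvd
  -- derivative
  obtain ⟨Q, hQ⟩ := h1
  have hder : derivative (Γ * b ^ 2 + a ^ 2) = b ^ 2 := by
    rw [derivative_add, derivative_mul, deriv_sq, deriv_sq, hΓ, derivative_add, deriv_sq,
      derivative_X]
    ring
  have hder2 : derivative (D ^ 2 * O * Q) = D ^ 2 * derivative (O * Q) := by
    rw [mul_assoc, derivative_mul, deriv_sq, zero_mul, zero_add]
  have hb2 : b ^ 2 = D ^ 2 * derivative (O * Q) := by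
    rw [← hder, hQ, hder2]
  obtain ⟨β, hβ⟩ : D ∣ b := sq_dvd_sq ⟨_, hb2⟩
  have ha2 : D ^ 2 ∣ a ^ 2 := by
    have h3 : a ^ 2 = (Γ * b ^ 2 + a ^ 2) - Γ * b ^ 2 := by ring
    rw [h3, hQ, hb2]
    refine dvd_sub ?_ ?_
    · rw [mul_assoc]; exact dvd_mul_right _ _
    · exact Dvd.dvd.mul_left (dvd_mul_right _ _) _
  obtain ⟨α, hα⟩ : D ∣ a := sq_dvd_sq ha2
  have hOdvd : O ∣ Γ * β ^ 2 + α ^ 2 := by
    have h4 : D ^ 2 * (Γ * β ^ 2 + α ^ 2) = D ^ 2 * (O * Q) := by
      rw [← mul_assoc, ← hQ, hβ, hα]; ring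
    have h5 := mul_left_cancel₀ (pow_ne_zero 2 hD.ne_zero) h4
    exact ⟨Q, h5⟩
  have hev : ∀ z ∈ Rt, Γ.eval z * β.eval z ^ 2 + α.eval z ^ 2 = 0 := by
    intro z hz
    obtain ⟨c, hc⟩ := hOdvd
    have hz0 : O.eval z = 0 := by
      have := (mem_roots hO.ne_zero).1 (Multiset.mem_toFinset.1 hz)
      exact this
    have h6 := congrArg (eval z) hc
    simp only [eval_add, eval_mul, eval_pow] at h6
    rw [h6, hz0, zero_mul]
  -- degrees
  have hbdeg : b.degree < ((D.natDegree + (m - D.natDegree) : ℕ) : WithBot ℕ) := by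
    refine lin_degree _ _ _ (fun j hj => ?_)
    have hj2 : (j : ℕ) < m := (mem_filter.1 hj).2
    omega
  have hadeg : a.degree < ((D.natDegree + (D.natDegree + O.natDegree - m) : ℕ) : WithBot ℕ) := by
    refine lin_degree _ _ _ (fun j hj => ?_)
    have hj2 : ¬ (j : ℕ) < m := (mem_filter.1 hj).2
    have hj3 := j.isLt
    omega
  have hβdeg : β.degree < ((m - D.natDegree : ℕ) : WithBot ℕ) := by
    rw [hβ] at hbdeg; exact quot_degree hD hbdeg
  have hαdeg : α.degree < ((D.natDegree + O.natDegree - m : ℕ) : WithBot ℕ) := by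
    rw [hα] at hadeg; exact quot_degree hD hadeg
  -- `α = 0`
  have hα0 : α = 0 := by
    refine eq_zero_of_degree_lt_of_eval_finset_eq_zero (s := Rt \ T) ?_ ?_
    · rw [Finset.card_sdiff_of_subset hT, hcardR, hTc]
      refine lt_of_lt_of_le hαdeg ?_
      exact_mod_cast (by omega)
    · intro z hz
      rw [mem_sdiff] at hz
      have h7 := hev z hz.1
      rw [hΓN z hz.1 hz.2, zero_mul, zero_add] at h7
      exact pow_eq_zero_iff two_ne_zero |>.1 h7
  have hβ0 : β = 0 := by
    refine eq_zero_of_degree_lt_of_eval_finset_eq_zero (s := T) ?_ ?_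
    · rw [hTc]; exact hβdeg
    · intro z hz
      have h7 := hev z (hT hz)
      rw [hΓT z hz, one_mul, hα0, eval_zero] at h7
      have h8 : β.eval z ^ 2 = 0 := by simpa using h7
      exact pow_eq_zero_iff two_ne_zero |>.1 h8
  -- conclusion
  apply hv
  funext j
  rw [Pi.zero_apply, ← hwv j]
  have hw0 : w j = 0 := by
    by_cases hj : (j : ℕ) < m
    · have h9 := lin_coeff sB w (fun j => (j : ℕ)) (fun i _ l _ h => Fin.ext h) j
        (by rw [hsB, mem_filter]; exact ⟨mem_univ _, hj⟩)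
      rw [← h9, ← hb, hβ, hβ0, mul_zero, coeff_zero]
    · have h9 := lin_coeff sA w (fun j => (j : ℕ) - m) (fun i hi l hl h => by
          have hi2 : ¬ (i : ℕ) < m := (mem_filter.1 hi).2
          have hl2 : ¬ (l : ℕ) < m := (mem_filter.1 hl).2
          apply Fin.ext
          omega) j
        (by rw [hsA, mem_filter]; exact ⟨mem_univ _, hj⟩)
      rw [← h9, ← ha, hα, hα0, mul_zero, coeff_zero]
  rw [hw0]
  ring

end Pool.Agent.Helper91.CYC
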