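import Mathlib

/-!
# The middle split: some balanced split of a set of distinct numbers has both
permanents of the Vandermonde matrix different from zero (second moment argument).
-/

set_option autoImplicit false

namespace Pool.Agent.Helper91.CYC

open Finset

/-- Permanent of the Vandermonde matrix of `x`. -/
def perV {K : Type*} [CommRing K] {r : ℕ} (x : Fin r → K) : K :=
  ∑ s : Equiv.Perm (Fin r), ∏ i, x i ^ (s i : ℕ)

/-- Exponents of the two blocks after adding the labels `s`, `t`. -/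
def ex {h m : ℕ} (s : Equiv.Perm (Fin h)) (t : Equiv.Perm (Fin m)) : Fin h ⊕ Fin m → ℕ :=
  Sum.elim (fun i => (i : ℕ) + (s i : ℕ)) (fun j => (j : ℕ) + 1 + (t j : ℕ))

/-- Base exponents. -/
def bas {h m : ℕ} : Fin h ⊕ Fin m → ℕ :=
  Sum.elim (fun i => (i : ℕ)) (fun j => (j : ℕ) + 1)

lemma le_of_strictMono {n : ℕ} (f : Fin n → ℕ) (hf : StrictMono f) (i : Fin n) : (i : ℕ) ≤ f i := by
  obtain ⟨i, hi⟩ := i
  induction i with
  | zero => exact Nat.zero_le _
  | succ j ih =>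
    have h1 : f ⟨j, by omega⟩ < f ⟨j + 1, hi⟩ := hf (by simp [Fin.lt_def])
    have h2 := ih (by omega)
    simp only at h2 ⊢
    omega

/-- An injective function to the naturals with the minimal possible sum has the square sum of
the interval. -/
lemma sum_sq_of_inj {ι : Type*} [Fintype ι] (e : ι → ℕ) (he : Function.Injective e)
    (hs : ∑ x, e x = ∑ i ∈ range (Fintype.card ι), i) :
    ∑ x, (e x) ^ 2 = ∑ i ∈ range (Fintype.card ι), i ^ 2 := by
  classical
  set n := Fintype.card ι with hn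
  set S : Finset ℕ := univ.image e with hS
  have hcard : S.card = n := by
    rw [hS, card_image_of_injective _ he, card_univ]
  set f := S.orderEmbOfFin hcard with hf
  have himg : univ.image (fun i : Fin n => f i) = S := by
    rw [hf]; exact Finset.image_orderEmbOfFin_univ S hcard
  have hsum : ∀ g : ℕ → ℕ, ∑ x, g (e x) = ∑ i : Fin n, g (f i) := by
    intro g
    have h1 : ∑ y ∈ S, g y = ∑ x, g (e x) := by
      rw [hS, sum_image (fun a _ b _ hab => he hab)]
    have h2 : ∑ y ∈ S, g y = ∑ i : Fin n, g (f i) := by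
      rw [← himg, sum_image (fun a _ b _ hab => f.injective hab)]
    rw [← h1, h2]
  have hle : ∀ i : Fin n, (i : ℕ) ≤ f i := fun i => le_of_strictMono (fun i => f i) f.strictMono i
  have hfi : ∀ i : Fin n, (i : ℕ) = f i := by
    have h0 : ∑ i : Fin n, (i : ℕ) = ∑ i : Fin n, (f i : ℕ) := by
      have := hsum id
      simp only [id] at this
      rw [← this, hs, Finset.sum_range]
    have := (Finset.sum_eq_sum_iff_of_le (s := (univ : Finset (Fin n)))
      (f := fun i : Fin n => (i : ℕ)) (g := fun i : Fin n => (f i : ℕ)) (fun i _ => hle i)).1 h0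
    intro i
    exact this i (mem_univ i)
  rw [hsum (fun y => y ^ 2), Finset.sum_range]
  exact Finset.sum_congr rfl (fun i _ => by rw [← hfi i])

section
variable {h m : ℕ}

lemma sum_ex (s : Equiv.Perm (Fin h)) (t : Equiv.Perm (Fin m)) :
    ∑ x, ex s t x = ∑ x, ex (1 : Equiv.Perm (Fin h)) (1 : Equiv.Perm (Fin m)) x := by
  simp only [ex, Fintype.sum_sum_type, Sum.elim_inl, Sum.elim_inr, Finset.sum_add_distrib,
    Equiv.Perm.coe_one, id]
  rw [Equiv.sum_comp s (fun i : Fin h => (i : ℕ)), Equiv.sum_comp t (fun i : Fin m => (i : ℕ))]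

lemma sq_ex (s : Equiv.Perm (Fin h)) (t : Equiv.Perm (Fin m)) :
    ∑ x, (ex s t x : ℤ) ^ 2 + ∑ i : Fin h, ((i : ℤ) - (s i : ℕ)) ^ 2
      + ∑ j : Fin m, ((j : ℤ) - (t j : ℕ)) ^ 2
      = ∑ x, (ex (1 : Equiv.Perm (Fin h)) (1 : Equiv.Perm (Fin m)) x : ℤ) ^ 2 := by
  simp only [ex, Fintype.sum_sum_type, Sum.elim_inl, Sum.elim_inr, Equiv.Perm.coe_one, id]
  push_cast
  have h1 : ∑ i : Fin h, ((i : ℤ) + (s i : ℕ)) ^ 2 + ∑ i : Fin h, ((i : ℤ) - (s i : ℕ)) ^ 2
      = ∑ i : Fin h, ((i : ℤ) + (i : ℕ)) ^ 2 := by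
    have e1 : ∑ i : Fin h, ((s i : ℕ) : ℤ) ^ 2 = ∑ i : Fin h, ((i : ℕ) : ℤ) ^ 2 :=
      Equiv.sum_comp s (fun i : Fin h => ((i : ℕ) : ℤ) ^ 2)
    have e2 : ∑ i : Fin h, (((i : ℤ) + (s i : ℕ)) ^ 2 + ((i : ℤ) - (s i : ℕ)) ^ 2)
        = 2 * ∑ i : Fin h, ((i : ℕ) : ℤ) ^ 2 + 2 * ∑ i : Fin h, ((s i : ℕ) : ℤ) ^ 2 := by
      rw [mul_sum, mul_sum, ← sum_add_distrib]
      exact sum_congr rfl (fun i _ => by ring)
    rw [← sum_add_distrib, e2, e1, ← add_mul, mul_sum]
    exact sum_congr rfl (fun i _ => by ring)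
  have h2 : ∑ j : Fin m, ((j : ℤ) + 1 + (t j : ℕ)) ^ 2 + ∑ j : Fin m, ((j : ℤ) - (t j : ℕ)) ^ 2
      = ∑ j : Fin m, ((j : ℤ) + 1 + (j : ℕ)) ^ 2 := by
    have e1 : ∑ i : Fin m, ((t i : ℕ) : ℤ) ^ 2 = ∑ i : Fin m, ((i : ℕ) : ℤ) ^ 2 :=
      Equiv.sum_comp t (fun i : Fin m => ((i : ℕ) : ℤ) ^ 2)
    have e3 : ∑ i : Fin m, ((t i : ℕ) : ℤ) = ∑ i : Fin m, ((i : ℕ) : ℤ) :=
      Equiv.sum_comp t (fun i : Fin m => ((i : ℕ) : ℤ))
    have e2 : ∑ i : Fin m, (((i : ℤ) + 1 + (t i : ℕ)) ^ 2 + ((i : ℤ) - (t i : ℕ)) ^ 2)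
        = 2 * ∑ i : Fin m, ((i : ℕ) : ℤ) ^ 2 + 2 * ∑ i : Fin m, ((t i : ℕ) : ℤ) ^ 2
          + 2 * ∑ i : Fin m, ((i : ℕ) : ℤ) + 2 * ∑ i : Fin m, ((t i : ℕ) : ℤ)
          + ∑ _i : Fin m, (1 : ℤ) := by
      rw [mul_sum, mul_sum, mul_sum, mul_sum, ← sum_add_distrib, ← sum_add_distrib,
        ← sum_add_distrib, ← sum_add_distrib]
      exact sum_congr rfl (fun i _ => by ring)
    rw [← sum_add_distrib, e2, e1, e3]
    have e4 : ∑ j : Fin m, ((j : ℤ) + 1 + (j : ℕ)) ^ 2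
        = 2 * ∑ i : Fin m, ((i : ℕ) : ℤ) ^ 2 + 2 * ∑ i : Fin m, ((i : ℕ) : ℤ) ^ 2
          + 2 * ∑ i : Fin m, ((i : ℕ) : ℤ) + 2 * ∑ i : Fin m, ((i : ℕ) : ℤ)
          + ∑ _i : Fin m, (1 : ℤ) := by
      rw [mul_sum, mul_sum, ← sum_add_distrib, ← sum_add_distrib,
        ← sum_add_distrib, ← sum_add_distrib]
      exact sum_congr rfl (fun i _ => by ring)
    rw [e4]
  linarith [h1, h2]

/-- The interleaving of the two blocks. -/
noncomputable def il (h1 : m ≤ h) (h2 : h ≤ m + 1) : Fin h ⊕ Fin m ≃ Fin (h + m) :=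
  Equiv.ofBijective
    (Sum.elim (fun i => (⟨(i : ℕ) + (i : ℕ), by have := i.2; omega⟩ : Fin (h + m)))
      (fun j => (⟨(j : ℕ) + 1 + (j : ℕ), by have := j.2; omega⟩ : Fin (h + m))))
    (by
      rw [Fintype.bijective_iff_injective_and_card]
      refine ⟨?_, by simp⟩
      rintro (i | i) (j | j) hij
      · simp only [Sum.elim_inl, Fin.mk.injEq] at hij
        congr 1
        apply Fin.ext
        omega
      · simp only [Sum.elim_inl, Sum.elim_inr, Fin.mk.injEq] at hij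
        omega
      · simp only [Sum.elim_inl, Sum.elim_inr, Fin.mk.injEq] at hij
        omega
      · simp only [Sum.elim_inr, Fin.mk.injEq] at hij
        congr 1
        apply Fin.ext
        omega)

lemma il_val (h1 : m ≤ h) (h2 : h ≤ m + 1) (x : Fin h ⊕ Fin m) :
    ((il h1 h2 x : Fin (h + m)) : ℕ)
      = ex (1 : Equiv.Perm (Fin h)) (1 : Equiv.Perm (Fin m)) x := by
  rcases x with i | j
  · simp [il, ex]
  · simp [il, ex]

lemma not_inj (h1 : m ≤ h) (h2 : h ≤ m + 1) (s : Equiv.Perm (Fin h)) (t : Equiv.Perm (Fin m))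
    (hst : ¬ (s = 1 ∧ t = 1)) : ¬ Function.Injective (ex s t) := by
  intro hinj
  have hcard : Fintype.card (Fin h ⊕ Fin m) = h + m := by simp
  have hone : ∀ g : ℕ → ℕ, ∑ x, g (ex (1 : Equiv.Perm (Fin h)) (1 : Equiv.Perm (Fin m)) x)
      = ∑ i ∈ range (h + m), g i := by
    intro g
    rw [Finset.sum_range]
    rw [← Equiv.sum_comp (il h1 h2) (fun i : Fin (h + m) => g (i : ℕ))]
    exact sum_congr rfl (fun x _ => by rw [il_val])
  have hsum : ∑ x, ex s t x = ∑ i ∈ range (Fintype.card (Fin h ⊕ Fin m)), i := by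
    rw [sum_ex, hcard]; exact hone id
  have hsq := sum_sq_of_inj _ hinj hsum
  rw [hcard, ← hone (fun y => y ^ 2)] at hsq
  have hz : (∑ x, (ex s t x : ℤ) ^ 2)
      = ∑ x, (ex (1 : Equiv.Perm (Fin h)) (1 : Equiv.Perm (Fin m)) x : ℤ) ^ 2 := by
    exact_mod_cast hsq
  have hk := sq_ex s t
  have hA : 0 ≤ ∑ i : Fin h, ((i : ℤ) - (s i : ℕ)) ^ 2 := sum_nonneg (fun i _ => sq_nonneg _)
  have hB : 0 ≤ ∑ j : Fin m, ((j : ℤ) - (t j : ℕ)) ^ 2 := sum_nonneg (fun i _ => sq_nonneg _)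
  have hA0 : ∑ i : Fin h, ((i : ℤ) - (s i : ℕ)) ^ 2 = 0 := by linarith
  have hB0 : ∑ j : Fin m, ((j : ℤ) - (t j : ℕ)) ^ 2 = 0 := by linarith
  apply hst
  constructor
  · ext i
    have := (Finset.sum_eq_zero_iff_of_nonneg (fun i _ => sq_nonneg _)).1 hA0 i (mem_univ i)
    have h3 : (i : ℤ) - (s i : ℕ) = 0 := by
      exact pow_eq_zero_iff (two_ne_zero) |>.1 this
    simp only [Equiv.Perm.coe_one, id]
    omega
  · ext i
    have := (Finset.sum_eq_zero_iff_of_nonneg (fun i _ => sq_nonneg _)).1 hB0 i (mem_univ i)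
    have h3 : (i : ℤ) - (t i : ℕ) = 0 := by
      exact pow_eq_zero_iff (two_ne_zero) |>.1 this
    simp only [Equiv.Perm.coe_one, id]
    omega

variable {K : Type*} [CommRing K]

/-- Alternant matrix with exponents `e`. -/
def alt (a : Fin h ⊕ Fin m → K) (e : Fin h ⊕ Fin m → ℕ) :
    Matrix (Fin h ⊕ Fin m) (Fin h ⊕ Fin m) K :=
  Matrix.of (fun x y => a x ^ e y)

lemma expand (a : Fin h ⊕ Fin m → K) :
    ∑ p : Equiv.Perm (Fin h ⊕ Fin m), ((Equiv.Perm.sign p : ℤ) : K) * (∏ y, a (p y) ^ bas y)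
        * (perV (fun i => a (p (Sum.inl i))) * perV (fun j => a (p (Sum.inr j))))
      = ∑ s : Equiv.Perm (Fin h), ∑ t : Equiv.Perm (Fin m), (alt a (ex s t)).det := by
  have h1 : ∀ p : Equiv.Perm (Fin h ⊕ Fin m),
      ((Equiv.Perm.sign p : ℤ) : K) * (∏ y, a (p y) ^ bas y)
        * (perV (fun i => a (p (Sum.inl i))) * perV (fun j => a (p (Sum.inr j))))
      = ∑ s : Equiv.Perm (Fin h), ∑ t : Equiv.Perm (Fin m),
          ((Equiv.Perm.sign p : ℤ) : K) * ∏ y, a (p y) ^ ex s t y := by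
    intro p
    rw [perV, perV, Finset.sum_mul_sum, mul_sum]
    refine sum_congr rfl (fun s _ => ?_)
    rw [mul_sum]
    refine sum_congr rfl (fun t _ => ?_)
    simp only [Fintype.prod_sum_type, bas, ex, Sum.elim_inl, Sum.elim_inr, pow_add,
      Finset.prod_mul_distrib]
    ring
  rw [sum_congr rfl (fun p _ => h1 p), sum_comm]
  refine sum_congr rfl (fun s _ => ?_)
  rw [sum_comm]
  refine sum_congr rfl (fun t _ => ?_)
  rw [Matrix.det_apply']
  rfl

lemma det_alt_zero (a : Fin h ⊕ Fin m → K) (e : Fin h ⊕ Fin m → ℕ)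
    (he : ¬ Function.Injective e) : (alt a e).det = 0 := by
  rw [Function.not_injective_iff] at he
  obtain ⟨x, y, hxy, hne⟩ := he
  exact Matrix.det_zero_of_column_eq hne (fun z => by simp [alt, hxy])

lemma det_alt_one (h1 : m ≤ h) (h2 : h ≤ m + 1) (a : Fin h ⊕ Fin m → K) :
    (alt a (ex 1 1)).det = (Matrix.vandermonde (a ∘ (il h1 h2).symm)).det := by
  have : alt a (ex 1 1) = (Matrix.vandermonde (a ∘ (il h1 h2).symm)).submatrix
      (il h1 h2) (il h1 h2) := by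
    ext x y
    simp only [alt, Matrix.of_apply, Matrix.submatrix_apply, Matrix.vandermonde_apply,
      Function.comp_apply, Equiv.symm_apply_apply]
    rw [il_val]
  rw [this, Matrix.det_submatrix_equiv_self]

/-- **Second moment identity.** -/
theorem alternating_sum (h1 : m ≤ h) (h2 : h ≤ m + 1) (a : Fin h ⊕ Fin m → K) :
    ∑ p : Equiv.Perm (Fin h ⊕ Fin m), ((Equiv.Perm.sign p : ℤ) : K) * (∏ y, a (p y) ^ bas y)
        * (perV (fun i => a (p (Sum.inl i))) * perV (fun j => a (p (Sum.inr j))))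
      = (Matrix.vandermonde (a ∘ (il h1 h2).symm)).det := by
  rw [expand, ← det_alt_one h1 h2 a]
  rw [Finset.sum_eq_single (1 : Equiv.Perm (Fin h))]
  · rw [Finset.sum_eq_single (1 : Equiv.Perm (Fin m))]
    · intro t _ ht
      exact det_alt_zero _ _ (not_inj h1 h2 _ _ (fun hh => ht hh.2))
    · intro hh; exact absurd (mem_univ _) hh
  · intro s _ hs
    refine Finset.sum_eq_zero (fun t _ => ?_)
    exact det_alt_zero _ _ (not_inj h1 h2 _ _ (fun hh => hs hh.1))
  · intro hh; exact absurd (mem_univ _) hh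

end

/-- Some ordering of distinct numbers has both blocks with non-zero permanent, first form. -/
theorem exists_split_aux {K : Type*} [CommRing K] [IsDomain K] {h m : ℕ} (h1 : m ≤ h)
    (h2 : h ≤ m + 1) (a : Fin h ⊕ Fin m → K) (ha : Function.Injective a) :
    ∃ p : Equiv.Perm (Fin h ⊕ Fin m),
      perV (fun i => a (p (Sum.inl i))) * perV (fun j => a (p (Sum.inr j))) ≠ 0 := by
  by_contra hcon
  push Not at hcon
  have hs := alternating_sum h1 h2 a
  rw [Finset.sum_eq_zero (fun p _ => by rw [hcon p, mul_zero])] at hs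
  have hv : (Matrix.vandermonde (a ∘ (il h1 h2).symm)).det ≠ 0 :=
    Matrix.det_vandermonde_ne_zero_iff.2 (ha.comp (il h1 h2).symm.injective)
  exact hv hs.symm

/-- Some ordering of distinct numbers has both blocks with non-zero permanent; the block sizes
differ by at most one. -/
theorem exists_split {K : Type*} [CommRing K] [IsDomain K] {h m : ℕ} (h1 : m ≤ h + 1)
    (h2 : h ≤ m + 1) (a : Fin h ⊕ Fin m → K) (ha : Function.Injective a) :
    ∃ p : Equiv.Perm (Fin h ⊕ Fin m),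
      perV (fun i => a (p (Sum.inl i))) * perV (fun j => a (p (Sum.inr j))) ≠ 0 := by
  rcases Nat.lt_or_ge h m with hlt | hge
  · obtain ⟨p, hp⟩ := exists_split_aux (h := m) (m := h) hlt.le h1
      (a ∘ Equiv.sumComm (Fin m) (Fin h)) (ha.comp (Equiv.sumComm (Fin m) (Fin h)).injective)
    refine ⟨(Equiv.sumComm (Fin h) (Fin m)).trans (p.trans (Equiv.sumComm (Fin m) (Fin h))), ?_⟩
    rw [mul_comm]
    simpa using hp
  · exact exists_split_aux hge h2 a ha

end Pool.Agent.Helper91.CYC
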